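import Pool.Agent.H16.FK.TargetsA

/-!
# RB1: cells are rows or lie in one hub
-/

set_option autoImplicit false

namespace Pool.Agent.H20.FK

open Set Pool.Agent.H75.HCI Pool.Agent.H16.FK

variable {kx k : ℕ} {L : Type}

lemma perm_finRange {a : List (Fin k)} (h1 : a.Nodup) (h2 : a.length = k) :
    a.Perm (List.finRange k) := by
  classical
  rw [List.perm_ext_iff_of_nodup h1 (List.nodup_finRange k)]
  intro x
  refine ⟨fun _ => List.mem_finRange x, fun _ => ?_⟩
  have h3 : a.toFinset = Finset.univ := by
    rw [← Finset.card_eq_iff_eq_univ, List.toFinset_card_of_nodup h1, h2, Fintype.card_fin]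
  have h4 : x ∈ a.toFinset := by rw [h3]; exact Finset.mem_univ _
  exact List.mem_toFinset.1 h4

lemma prt_perm {i m : ℕ} {a : List (Fin k)} (h1 : a.Nodup) (h2 : a.length = k) :
    (prt i m a : List (Idx kx k)).Perm (row i m) :=
  (perm_finRange h1 h2).map _

lemma prt_append (i m : ℕ) (a b : List (Fin k)) :
    (prt i m (a ++ b) : List (Idx kx k)) = prt i m a ++ prt i m b := List.map_append

/-- the places of `D` give coordinates of the row -/
lemma coords {T : List (Idx kx k) → L} (hk : 1 ≤ k) (hT : FTx T) {D : List (Idx kx k)}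
    (h2 : D.length = k) (h3 : T D = T (row 0 0)) :
    ∃ c : Idx kx k → Fin k, (∀ x ∈ D, ∀ y ∈ D, c x = c y → x = y) ∧
      ∀ l : List (Idx kx k), (∀ x ∈ l, x ∈ D) → T l = T (prt 0 0 (l.map c)) := by
  classical
  have hix : ∀ x : Idx kx k, ∃ n : ℕ, x ∈ D → n < k ∧ D[n]? = some x := by
    intro x
    by_cases hx : x ∈ D
    · obtain ⟨n, hn, h4⟩ := List.getElem_of_mem hx
      refine ⟨n, fun _ => ⟨by omega, ?_⟩⟩
      rw [List.getElem?_eq_getElem hn, h4]
    · exact ⟨0, fun h => absurd h hx⟩
  choose ix hix using hix
  let c : Idx kx k → Fin k := fun x => if h : ix x < k then ⟨ix x, h⟩ else ⟨0, hk⟩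
  have hc : ∀ (x : Idx kx k) (hx : x ∈ D), c x = ⟨ix x, (hix x hx).1⟩ := by
    intro x hx
    simp only [c, dif_pos (hix x hx).1]
  refine ⟨c, ?_, ?_⟩
  · intro x hx y hy hxy
    rw [hc x hx, hc y hy, Fin.mk.injEq] at hxy
    have h4 := (hix x hx).2
    rw [hxy, (hix y hy).2] at h4
    exact (Option.some.inj h4).symm
  · intro l hl
    have hrl : (row 0 0 : List (Idx kx k)).length = k := by
      simp [row, prt]
    have e1 : sel D (l.map ix) = l := by
      unfold sel
      rw [List.filterMap_map]
      have e2 : l.filterMap ((fun i => D[i]?) ∘ ix) = l.filterMap some := by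
        refine List.filterMap_congr fun x hx => ?_
        exact (hix x (hl x hx)).2
      rw [e2, List.filterMap_some]
    have e3 : sel (row 0 0 : List (Idx kx k)) (l.map ix) = prt 0 0 (l.map c) := by
      unfold sel prt
      rw [List.filterMap_map, List.map_map, ← List.filterMap_eq_map]
      refine List.filterMap_congr fun x hx => ?_
      have h5 : ix x < (row 0 0 : List (Idx kx k)).length := hrl.symm ▸ (hix x (hl x hx)).1
      simp only [Function.comp]
      rw [List.getElem?_eq_getElem h5, hc x (hl x hx)]
      simp only [row, prt, List.getElem_map, List.getElem_finRange]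
      rfl
    have h4 := hT D (row 0 0) (l.map ix) (by rw [h2, hrl]) h3
    rw [e1, e3] at h4
    exact h4

/-- linkedness moves to `D` -/
lemma lk_cell {T : List (Idx kx k) → L} (hk : 1 ≤ k) (hT : AXP T) (hlk : Lk T [] (row 0 0))
    {D : List (Idx kx k)} (h1 : D.Nodup) (h2 : D.length = k) (h3 : T D = T (row 0 0)) :
    Lk T [] D := by
  obtain ⟨c, hc1, hc2⟩ := coords hk hT.ft h2 h3
  intro u v hu hv huv hgen
  rw [List.nil_append] at hgen
  obtain ⟨-, a, i, m, ha1, ha2, ha3, ha4, ha5⟩ := hgen
  have hm : ∀ x ∈ u ++ v, x ∈ D := fun x hx => huv.mem_iff.1 hx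
  have hmu : ∀ x ∈ u, x ∈ D := fun x hx => hm x (List.mem_append_left _ hx)
  have hmv : ∀ x ∈ v, x ∈ D := fun x hx => hm x (List.mem_append_right _ hx)
  have hnd : (u ++ v).Nodup := huv.nodup_iff.2 h1
  have hnd' : ((u ++ v).map c).Nodup :=
    List.Nodup.map_on (fun x hx y hy => hc1 x (hm x hx) y (hm y hy)) hnd
  have hlen : ((u ++ v).map c).length = k := by
    rw [List.length_map, huv.length_eq, h2]
  have hT1 : T (prt 0 0 (u.map c) ++ prt 0 0 (v.map c)) = T (u ++ v) := by
    rw [hc2 _ hm, List.map_append, prt_append]
  have hT2 := hc2 u hmu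
  have hmiss : Miss 0 1 (prt 0 0 (u.map c) : List (Idx kx k)) := by
    intro y hy
    simp only [prt, List.mem_map] at hy
    obtain ⟨z, -, hz⟩ := hy
    simp at hz
  refine hlk (prt 0 0 (u.map c)) (prt 0 0 (v.map c)) ?_ ?_ ?_ ?_
  · intro h
    simp only [prt, List.map_eq_nil_iff] at h
    exact hu h
  · intro h
    simp only [prt, List.map_eq_nil_iff] at h
    exact hv h
  · rw [← prt_append, ← List.map_append]
    exact prt_perm hnd' hlen
  · rw [List.nil_append]
    refine ⟨?_, a, 0, 1, ha1, ?_, ha3, hmiss, ?_⟩
    · intro h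
      simp only [prt, List.map_eq_nil_iff] at h
      exact hv h
    · simp only [prt, List.length_map]
      exact ha2
    · rw [hT1, ha5]
      refine hT.ext _ _ i m 0 1 a ?_ hT2 ha1 ha3 ha4 hmiss
      simp only [prt, List.length_map]

theorem pf_RB1 : T_RB1 := by
  classical
  intro kx k L T hT hk hlk D h1 h2 h3
  have hD := lk_cell hk hT hlk h1 h2 h3
  by_cases hex : ∃ i m y, ((i, .inr (m, y)) : Idx kx k) ∈ D
  · left
    obtain ⟨i, m, y, hy⟩ := hex
    refine ⟨i, m, ?_⟩
    let P : Idx kx k → Prop := fun p => ∃ z, p = (i, .inr (m, z))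
    have hperm : (D.filter (fun p => ¬ P p) ++ D.filter (fun p => P p)).Perm D := by
      have h4 := List.filter_append_perm (fun p => decide (P p)) D
      refine (List.perm_append_comm).trans ?_
      simpa using h4
    set u := D.filter (fun p => ¬ P p) with hu
    set v := D.filter (fun p => P p) with hv
    have hva : ∃ a : List (Fin k), v = prt i m a := by
      have h4 : ∀ p ∈ v, P p := fun p hp => by
        have := (List.mem_filter.1 hp).2
        simpa using this
      clear_value v
      clear hperm hv
      induction v with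
      | nil => exact ⟨[], rfl⟩
      | cons p v ih =>
        obtain ⟨a, ha⟩ := ih fun q hq => h4 q (List.mem_cons_of_mem _ hq)
        obtain ⟨z, hz⟩ := h4 p (List.mem_cons_self ..)
        exact ⟨z :: a, by rw [ha, hz]; rfl⟩
    obtain ⟨a, ha⟩ := hva
    have hvnd : v.Nodup := h1.filter _
    have hand : a.Nodup := by
      rw [ha] at hvnd
      exact List.Nodup.of_map _ hvnd
    have hlen : u.length + v.length = k := by
      rw [← List.length_append, hperm.length_eq, h2]
    have hav : a.length = v.length := by
      rw [ha]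
      simp [prt]
    have hvne : v ≠ [] := by
      intro h4
      have h5 : ((i, .inr (m, y)) : Idx kx k) ∈ v := by
        rw [hv, List.mem_filter]
        exact ⟨hy, by simp [P]⟩
      rw [h4] at h5
      exact absurd h5 (by simp)
    by_cases hune : u = []
    · rw [hune, List.nil_append] at hperm
      refine hperm.symm.trans ?_
      rw [ha]
      refine prt_perm hand ?_
      rw [hune, List.length_nil, Nat.zero_add] at hlen
      rw [hav, hlen]
    · exfalso
      refine hD u v hune hvne hperm ⟨hvne, a, i, m, hand, hav, ?_, ?_, ?_⟩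
      · have h4 := List.length_pos_iff.2 hune
        omega
      · intro z hz
        rw [List.nil_append, hu, List.mem_filter] at hz
        have h4 := hz.2
        simp [P] at h4
      · rw [ha]
  · right
    have hhub : ∀ p ∈ D, ∃ b, p.2 = .inl b := by
      rintro ⟨i, z⟩ hp
      rcases z with b | ⟨m, y⟩
      · exact ⟨b, rfl⟩
      · exact absurd ⟨i, m, y, hp⟩ hex
    have hDne : D ≠ [] := by
      intro h
      rw [h, List.length_nil] at h2
      omega
    obtain ⟨p0, hp0, hmax⟩ : ∃ p0 ∈ D, ∀ p ∈ D, p.1 ≤ p0.1 := by
      obtain ⟨p0, hp0, h4⟩ := Finset.exists_max_image D.toFinset (fun p => p.1)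
        (by
          obtain ⟨q, hq⟩ := List.exists_mem_of_ne_nil D hDne
          exact ⟨q, List.mem_toFinset.2 hq⟩)
      exact ⟨p0, List.mem_toFinset.1 hp0, fun p hp => h4 p (List.mem_toFinset.2 hp)⟩
    set n := p0.1 with hn
    by_cases hall : ∀ p ∈ D, p.1 = n
    · refine ⟨n, ?_⟩
      clear hD hmax hp0 hDne hex h1 h2 h3
      clear_value n
      induction D with
      | nil => exact ⟨[], rfl⟩
      | cons p D ih =>
        obtain ⟨b, hb⟩ := ih (fun q hq => hhub q (List.mem_cons_of_mem _ hq))
          (fun q hq => hall q (List.mem_cons_of_mem _ hq))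
        obtain ⟨z, hz⟩ := hhub p (List.mem_cons_self ..)
        refine ⟨z :: b, ?_⟩
        rw [hb]
        change _ = (n, Sum.inl z) :: hub n b
        rw [← hz, ← hall p (List.mem_cons_self ..)]
    · exfalso
      have hperm : (D.filter (fun p => ¬ p.1 = n) ++ D.filter (fun p => p.1 = n)).Perm D := by
        have h4 := List.filter_append_perm (fun p => decide (p.1 = n)) D
        refine (List.perm_append_comm).trans ?_
        simpa using h4
      set u := D.filter (fun p => ¬ p.1 = n) with hu
      set v := D.filter (fun p => p.1 = n) with hv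
      have hvne : v ≠ [] := by
        intro h4
        have h5 : p0 ∈ v := by
          rw [hv, List.mem_filter]
          exact ⟨hp0, by simp [hn]⟩
        rw [h4] at h5
        exact absurd h5 (by simp)
      have hune : u ≠ [] := by
        push Not at hall
        obtain ⟨q, hq, hqn⟩ := hall
        intro h4
        have h5 : q ∈ u := by
          rw [hu, List.mem_filter]
          exact ⟨hq, by simpa using hqn⟩
        rw [h4] at h5
        exact absurd h5 (by simp)
      have hlen : u.length + v.length = k := by
        rw [← List.length_append, hperm.length_eq, h2]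
      have hvD : ∀ x ∈ v, x ∈ D := fun x hx => (List.mem_filter.1 hx).1
      have huD : ∀ x ∈ u, x ∈ D := fun x hx => (List.mem_filter.1 hx).1
      obtain ⟨c, hc1, hc2⟩ := coords hk hT.ft h2 h3
      have hvnd : v.Nodup := h1.filter _
      have hand : (v.map c).Nodup :=
        List.Nodup.map_on (fun x hx y hy => hc1 x (hvD x hx) y (hvD y hy)) hvnd
      have hlt : (v.map c).length < k := by
        rw [List.length_map]
        have h4 := List.length_pos_iff.2 hune
        omega
      have hmiss : Miss 0 0 u := by
        intro z hz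
        obtain ⟨b, hb⟩ := hhub _ (huD _ hz)
        simp at hb
      refine hD u v hune hvne hperm ⟨hvne, v.map c, 0, 0, hand, List.length_map _, hlt, ?_, ?_⟩
      · rw [List.nil_append]
        exact hmiss
      · rw [List.nil_append]
        refine hT.t4 n u v 0 0 (v.map c) ?_ ?_ hvnd (List.length_map _).symm hand hlt hmiss
          (hc2 v hvD)
        · intro p hp
          have h4 := hmax p (huD p hp)
          have h5 : ¬ p.1 = n := by
            have := (List.mem_filter.1 hp).2
            simpa using this
          omega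
        · intro p hp
          have h5 : p.1 = n := by
            have := (List.mem_filter.1 hp).2
            simpa using this
          omega

end Pool.Agent.H20.FK
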