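import Pool.Agent.H16.FK.TargetsA
import Pool.Agent.H75.HCI.GPC

/-!
# RB3: recognition of the rows, nonsplit case, end
-/

set_option autoImplicit false

namespace Pool.Agent.H20.FK

open Set Pool.Agent.H75.HCI Pool.Agent.H16.FK

theorem pf_RB3 (h : T_RB2) : T_RB3 := by
  intro kx k L T cl hT hk hlk hcl hC
  obtain ⟨s, s', g, h1, h2, h3, -, -, h6, h7, -⟩ := hC 0 1
  have h6' : Fast kx s s' := by simpa only [Nat.zero_add] using h6
  have hE := h kx k L T cl s s' g hT hk hlk hcl h7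
  obtain ⟨In, hIn, hsp⟩ := Pool.Agent.H75.HCI.pf_GP kx k L cl T s s' g hk hT.pat h1 h2 h3 h6' hE
    h7.img
  exact ⟨In, hIn, hsp⟩

end Pool.Agent.H20.FK
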