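import Pool.Agent.H84.FK.Targets3

set_option autoImplicit false
set_option linter.unusedVariables false

namespace Pool.Agent.H20.FKZ5E

open Pool.Agent.H84.FK

theorem pf_z5e (hZI : T_ZI) (hSW : T_SW) (hSYL : T_SYL) (hD7 : T_D7) (hD4 : T_D4) :
    T_Z5E := by
  intro G _ A A0 B B0 M u d hCE hZ heven
  have := hCE.fin
  obtain ⟨z, hzB0, hz2, hz1, hzc⟩ := hZI G B B0 A A0 (hSW G A A0 B B0 hCE) heven
  obtain ⟨S, hS⟩ := hSYL G A A0 B B0 hCE
  have huA0 : u ∈ A0 := by
    by_contra hu
    refine (hD4 G A A0 B B0 hCE).2.2.2.2.2.1 ?_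
    have key : ∀ x ∈ A, x ∉ A0 → x * u ∈ A0 := fun x hx hx0 =>
      hCE.twoA.2 x hx u hZ.uA hx0 hu
    intro x hx y hy
    have hxu := hZ.cu x hx
    have hyu := hZ.cu y hy
    by_cases h1 : x ∈ A0
    · by_cases h2 : y ∈ A0
      · exact hCE.abA x h1 y h2
      · have h3 := hCE.abA x h1 _ (key y hy h2)
        have h4 : (x * y) * u = (y * x) * u := by
          calc (x * y) * u = x * (y * u) := by group
            _ = (y * u) * x := h3
            _ = y * (u * x) := by group
            _ = y * (x * u) := by rw [hxu]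
            _ = (y * x) * u := by group
        exact mul_right_cancel h4
    · by_cases h2 : y ∈ A0
      · have h3 := hCE.abA _ (key x hx h1) y h2
        have h4 : (x * y) * u = (y * x) * u := by
          calc (x * y) * u = x * (y * u) := by group
            _ = x * (u * y) := by rw [hyu]
            _ = (x * u) * y := by group
            _ = y * (x * u) := h3
            _ = (y * x) * u := by group
        exact mul_right_cancel h4
      · have h3 := hCE.abA _ (key x hx h1) _ (key y hy h2)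
        calc x * y = x * y * (u * u) := by rw [hZ.u2, mul_one]
          _ = x * (y * u) * u := by group
          _ = x * (u * y) * u := by rw [hyu]
          _ = (x * u) * (y * u) := by group
          _ = (y * u) * (x * u) := h3
          _ = y * (u * x) * u := by group
          _ = y * (x * u) * u := by rw [hxu]
          _ = y * x * (u * u) := by group
          _ = y * x := by rw [hZ.u2, mul_one]
  have huS : u ∈ S := hS.uA u huA0 ⟨1, by rw [pow_one, pow_two]; exact hZ.u2⟩
  have hzS : z ∈ S := hS.uB z hzB0 ⟨1, by rw [pow_one, pow_two]; exact hz2⟩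
  have hnc : ¬ u * z = z * u := by
    intro h
    refine hD7 G A A0 B B0 hCE u z 1 hZ.une hz1 hZ.cu hzc ?_
    rw [one_mul, inv_one, mul_one]
    exact h
  have hui : u⁻¹ = u := inv_eq_of_mul_eq_one_left hZ.u2
  have hzi : z⁻¹ = z := inv_eq_of_mul_eq_one_left hz2
  have hconj : ∀ n : ℕ, u * (u * z) ^ n * u⁻¹ = ((u * z) ^ n)⁻¹ := by
    intro n
    have h1 : u * (u * z) * u⁻¹ = (u * z)⁻¹ := by
      rw [mul_inv_rev, hui, hzi, ← mul_assoc, hZ.u2, one_mul]
    rw [← inv_pow, ← h1, conj_pow]
  -- the order of `u z`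
  obtain ⟨k, hk⟩ := (IsPGroup.iff_orderOf.1 hS.pg) ⟨u * z, S.mul_mem huS hzS⟩
  have hk' : orderOf (u * z) = 2 ^ k := by
    rw [← hk]
    exact (Subgroup.orderOf_mk _ _).symm
  have hk2 : 2 ≤ k := by
    by_contra hlt
    have h1 : (u * z) ^ 2 = 1 := by
      have : 2 ^ k ∣ 2 := by
        interval_cases k
        · norm_num
        · norm_num
      rw [← hk'] at this
      exact orderOf_dvd_iff_pow_eq_one.1 this
    apply hnc
    have h2 : (u * z) * (u * z) = 1 := by rw [← pow_two]; exact h1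
    have h3 : u * z = (u * z)⁻¹ := (inv_eq_of_mul_eq_one_left h2).symm
    rw [mul_inv_rev, hui, hzi] at h3
    exact h3
  obtain ⟨j, rfl⟩ := Nat.exists_eq_add_of_le hk2
  set h := (u * z) ^ (2 ^ j) with hh
  have hc1 : h * h ≠ 1 := by
    intro hc
    have h1 : (u * z) ^ (2 ^ (1 + j)) = 1 := by
      rw [pow_add, pow_one, mul_comm, pow_mul, pow_two]
      exact hc
    have h2 := orderOf_dvd_iff_pow_eq_one.2 h1
    rw [hk'] at h2
    have := (Nat.pow_dvd_pow_iff_le_right (x := 2) (by norm_num)).1 h2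
    omega
  have hc2 : (h * h) * (h * h) = 1 := by
    have h1 : (u * z) ^ (2 ^ (2 + j)) = 1 := by rw [← hk']; exact pow_orderOf_eq_one _
    have h2 : (h * h) * (h * h) = (u * z) ^ (2 ^ (2 + j)) := by
      rw [hh, ← pow_add, ← pow_add]
      congr 1
      rw [pow_add]
      ring
    rw [h2, h1]
  have huh : u * h * u⁻¹ = h⁻¹ := hconj _
  have hcu : u * (h * h) * u⁻¹ = h * h := by
    have h1 : u * (h * h) * u⁻¹ = (u * h * u⁻¹) * (u * h * u⁻¹) := by group
    rw [h1, huh, ← mul_inv_rev]
    exact inv_eq_of_mul_eq_one_left hc2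
  have hhu : h⁻¹ * u * h = u * (h * h) := by
    have h1 : u * h⁻¹ * u⁻¹ = h := by
      calc u * h⁻¹ * u⁻¹ = (u * h * u⁻¹)⁻¹ := by group
        _ = (h⁻¹)⁻¹ := by rw [huh]
        _ = h := inv_inv h
    have h2 : h⁻¹ * u = u * h := by
      have h3 : u⁻¹ * h⁻¹ * u = h := by
        have := h1
        rw [hui] at this ⊢
        exact this
      calc h⁻¹ * u = u * (u⁻¹ * h⁻¹ * u) := by group
        _ = u * h := by rw [h3]
    rw [h2, mul_assoc]
  have hM : u * (h * h) ∈ M := by
    refine (hZ.cen _).1 ?_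
    have h1 : u * (h * h) = (h * h) * u := by
      have h2 := congrArg (· * u) hcu
      simp only [inv_mul_cancel_right] at h2
      exact h2
    rw [mul_assoc u (h * h) u, ← h1]
  obtain ⟨m, hm, v, hv, hmv⟩ := hZ.fac h
  have hmu : m * u = u * m := (hZ.cen m).2 hm
  have h1 : h⁻¹ * u * h = v⁻¹ * u * v := by
    rw [hmv]
    calc (m * v)⁻¹ * u * (m * v) = v⁻¹ * m⁻¹ * (u * m) * v := by group
      _ = v⁻¹ * m⁻¹ * (m * u) * v := by rw [hmu]
      _ = v⁻¹ * u * v := by group
  refine ⟨v, hv, ?_, ?_⟩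
  · intro hv1
    rw [hhu, hv1] at h1
    have h2 : u * (h * h) = u * 1 := by rw [h1]; group
    exact hc1 (mul_left_cancel h2)
  · rw [← h1, hhu]
    exact hM

end Pool.Agent.H20.FKZ5E
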