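import Pool.Agent.H84.FK.Targets3

set_option autoImplicit false
set_option linter.unusedVariables false

namespace Pool.Agent.H20.FKZ5O

open Pool.Agent.H84.FK

/-- the index of `M` is the order of a complement -/
theorem index_eq {G : Type} [Group G] [Finite G] (M R : Subgroup G) (hf : Fac M R)
    (hi : ∀ x ∈ M, x ∈ R → x = 1) : M.index = Nat.card R := by
  have hb : Function.Bijective (fun v : R => (QuotientGroup.mk ((v : G)⁻¹) : G ⧸ M)) := by
    constructor
    · intro v w h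
      have h1 : ((v : G)⁻¹)⁻¹ * (w : G)⁻¹ ∈ M := QuotientGroup.eq.1 h
      rw [inv_inv] at h1
      have h2 := hi _ h1 (R.mul_mem v.2 (R.inv_mem w.2))
      exact Subtype.ext (mul_inv_eq_one.1 h2)
    · intro q
      obtain ⟨g, rfl⟩ := QuotientGroup.mk_surjective q
      obtain ⟨m, hm, v, hv, h⟩ := hf g⁻¹
      refine ⟨⟨v, hv⟩, ?_⟩
      refine QuotientGroup.eq.2 ?_
      have : (v⁻¹)⁻¹ * g = m⁻¹ := by
        have : g = v⁻¹ * m⁻¹ := by rw [← mul_inv_rev, ← h, inv_inv]
        rw [this]; group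
      show (v⁻¹)⁻¹ * g ∈ M
      rw [this]
      exact M.inv_mem hm
  rw [Subgroup.index]
  exact (Nat.card_congr (Equiv.ofBijective _ hb)).symm

theorem pf_z5o (hFUS : T_FUS) (hLCT : T_LCT) (hN0 : T_N0) (hD3 : T_D3) (hD4 : T_D4) :
    T_Z5O := by
  intro G _ A A0 B B0 M u d hCE hZ hodd
  have := hCE.fin
  by_contra hcon
  push Not at hcon
  have hiso : ∀ g : G, g⁻¹ * u * g ∈ M → g⁻¹ * u * g = u := by
    intro g hg
    obtain ⟨m, hm, v, hv, rfl⟩ := hZ.fac g
    have hmu : m * u = u * m := (hZ.cen m).2 hm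
    have h1 : (m * v)⁻¹ * u * (m * v) = v⁻¹ * u * v := by
      calc (m * v)⁻¹ * u * (m * v) = v⁻¹ * m⁻¹ * (u * m) * v := by group
        _ = v⁻¹ * m⁻¹ * (m * u) * v := by rw [hmu]
        _ = v⁻¹ * u * v := by group
    rw [h1] at hg ⊢
    by_cases hv1 : v = 1
    · rw [hv1]; group
    · exact absurd hg (hcon v hv hv1)
  have hfus := hFUS G M u hZ.u2 hZ.cen hiso
  have hidx : ¬ 2 ∣ M.index := by
    rw [index_eq M B0 hZ.fac hZ.int]
    exact hodd
  have hdM : d ∈ M := (hZ.mem d).2 (Or.inr (by rw [hZ.d2]; exact A.one_mem))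
  have hdA : d ∉ A := by
    intro hd
    have := hD3 G A A0 B B0 hCE 1 d d hd hZ.dB (by group)
    exact hZ.dnB (by rw [this]; exact B0.one_mem)
  have hdinv : d⁻¹ = d := inv_eq_of_mul_eq_one_left hZ.d2
  have htwo : Two M A := by
    refine ⟨fun x hx => (hZ.mem x).2 (Or.inl hx), ?_⟩
    intro x hx y hy hxA hyA
    have h1 : x * d ∈ A := ((hZ.mem x).1 hx).resolve_left hxA
    have h2 : y * d ∈ A := ((hZ.mem y).1 hy).resolve_left hyA
    have h3 : d * y ∈ A := by
      have := hZ.nrm _ h2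
      have h4 : d * (y * d) * d⁻¹ = d * y := by group
      rwa [h4] at this
    have h5 : x * y = (x * d) * (d * y) := by
      rw [show (x * d) * (d * y) = x * (d * d) * y by group, hZ.d2]; group
    rw [h5]
    exact A.mul_mem h1 h3
  have hne : A ≠ M := fun h => hdA (by rw [h]; exact hdM)
  obtain ⟨K, hK, hKt, hAK⟩ := hLCT G M A hfus hidx htwo hne
  have hKb : K ≠ ⊥ := by
    intro h
    have := hAK hZ.uA
    rw [h, Subgroup.mem_bot] at this
    exact hZ.une this
  obtain ⟨hfac, -⟩ := hN0 G A A0 B B0 hCE K hK hKb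
  refine hKt (eq_top_iff.2 fun g _ => ?_)
  obtain ⟨a, ha, k, hk, rfl⟩ := hfac g
  exact K.mul_mem (hAK ha) hk

end Pool.Agent.H20.FKZ5O
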